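import Pool.Agent.Helper60.RT.Defs2
import Mathlib.NumberTheory.DiophantineApproximation.Basic

/-!
# Project RT, blocks K3 (`classify`), K4 (`sub_near`) and `arc_near`
-/

open MeasureTheory Real Set Filter Topology

set_option autoImplicit false

namespace Pool.Agent.Helper60.RT

open Pool.Agent.Helper22.AE
open Pool.Agent.Helper22.AC (IsWt)
open Pool.Agent.Helper92.GC (dt tp Tq uu tt arc dd sqa m6)
open Pool.Agent.Helper92.DT (m12 IsMul12)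
open Pool.Agent.Helper60.LT (Fr Tf xf yf df vf fr ac co Cut BB PP)
open Pool.Agent.Helper60.QL (R3 nm pA xA sA TA Cone)
open Pool.Agent.Helper78.CD (n12)
open Pool.Agent.Helper78.CE (hs mu2)

/-! ## the centre of an arc -/

theorem arc_near {N' N r : ℕ} (hN : 1 ≤ N) {S : Finset (ℤ × ℤ)} (hS : S ⊆ cn N') {k : ℤ × ℤ} (hk : k ∈ arc 0 S N r) : |tt 0 k - ctr N r| ≤ 6 / N := by
  unfold arc at hk
  obtain ⟨hkS, hf⟩ := Finset.mem_filter.1 hk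
  have hkc := hS hkS
  unfold cn at hkc
  obtain ⟨-, h1, h2⟩ := Finset.mem_filter.1 hkc
  have hk1 : (0 : ℤ) < k.1 := by omega
  have hk1' : (0 : ℝ) < (k.1 : ℝ) := by exact_mod_cast hk1
  have htt : tt 0 k = (k.2 : ℝ) / (k.1 : ℝ) := by
    unfold tt uu
    simp
  have hlo : -1 ≤ tt 0 k := by
    rw [htt, le_div_iff₀ hk1']
    have : ((-k.1 : ℤ) : ℝ) ≤ ((k.2 : ℤ) : ℝ) := by exact_mod_cast h1.le
    push_cast at this
    linarith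
  have hN0 : (0 : ℝ) < N := by exact_mod_cast hN
  have hz : 0 ≤ (N : ℝ) * ((tt 0 k + 6) / 12) := by
    apply mul_nonneg hN0.le
    linarith
  have hfl : (r : ℝ) ≤ (N : ℝ) * ((tt 0 k + 6) / 12) := by
    rw [← hf]
    exact Nat.floor_le hz
  have hfu : (N : ℝ) * ((tt 0 k + 6) / 12) < (r : ℝ) + 1 := by
    rw [← hf]
    exact Nat.lt_floor_add_one _
  unfold ctr
  have e1 : tt 0 k - (12 * ((r : ℝ) + 1 / 2) / N - 6) = 12 / N * ((N : ℝ) * ((tt 0 k + 6) / 12) - (r + 1 / 2)) := by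
    field_simp
    ring
  have e2 : (6 : ℝ) / N = 12 / N * (1 / 2) := by ring
  rw [e1, e2, abs_mul, abs_of_pos (by positivity : (0 : ℝ) < 12 / N)]
  refine mul_le_mul_of_nonneg_left ?_ (by positivity)
  rw [abs_le]
  constructor <;> linarith

/-! ## Dirichlet -/

/-- Dirichlet's theorem in the form of primitive vectors -/
private theorem dir33 (τ : ℝ) {V : ℝ} (hV : 1 ≤ V) : ∃ n : ℤ × ℤ, Pr n ∧ (n.1 : ℝ) ≤ V ∧ (n.1 : ℝ) * |sp n - τ| < 1 / V := by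
  have hN : 0 < ⌊V⌋₊ := Nat.floor_pos.2 hV
  have hV0 : 0 < V := by linarith
  obtain ⟨q, hq, hden⟩ := Real.exists_rat_abs_sub_le_and_den_le τ hN
  have hd0 : (0 : ℝ) < (q.den : ℝ) := by exact_mod_cast q.den_pos
  refine ⟨((q.den : ℤ), q.num), ⟨?_, Int.natCast_pos.2 q.den_pos⟩, ?_, ?_⟩
  · have h := q.reduced
    have h' : IsCoprime q.num (q.den : ℤ) := by
      rw [Int.isCoprime_iff_gcd_eq_one]
      simpa [Int.gcd, Nat.Coprime] using h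
    exact h'.symm
  · have h1 : (q.den : ℝ) ≤ (⌊V⌋₊ : ℝ) := by exact_mod_cast hden
    have h2 : (⌊V⌋₊ : ℝ) ≤ V := Nat.floor_le hV0.le
    simpa using h1.trans h2
  · have hsp : sp ((q.den : ℤ), q.num) = (q : ℝ) := by
      unfold sp
      simp only [Int.cast_natCast]
      exact (Rat.cast_def q).symm
    rw [hsp]
    have hn1 : V < (⌊V⌋₊ : ℝ) + 1 := Nat.lt_floor_add_one V
    have hn0 : (0 : ℝ) < (⌊V⌋₊ : ℝ) + 1 := by positivity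
    simp only [Int.cast_natCast]
    rw [abs_sub_comm]
    calc (q.den : ℝ) * |τ - q| ≤ q.den * (1 / (((⌊V⌋₊ : ℝ) + 1) * q.den)) := mul_le_mul_of_nonneg_left hq hd0.le
      _ = 1 / ((⌊V⌋₊ : ℝ) + 1) := by field_simp
      _ < 1 / V := one_div_lt_one_div_of_lt hV0 hn1

/-- K3: Dirichlet at level `D`: type I or type II -/
theorem classify {D w τ : ℝ} (hD : 1 ≤ D) (hw : 0 < w) : (∃ n : ℤ × ℤ, Pr n ∧ (n.1 : ℝ) ≤ D ∧ |sp n - τ| ≤ w) ∨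
    ((∀ n : ℤ × ℤ, Pr n → (n.1 : ℝ) ≤ D → w < |sp n - τ|) ∧ ∃ (j : ℕ) (n : ℤ × ℤ), Pr n ∧ (n.1 : ℝ) ≤ D ∧ w < |sp n - τ| ∧ D ≤ 2 ^ (j + 1) ∧
      2 ^ j * ((n.1 : ℝ) * |sp n - τ|) ≤ 1 ∧ 1 ≤ 2 * 2 ^ j * ((n.1 : ℝ) * |sp n - τ|)) := by
  by_cases hI : ∃ n : ℤ × ℤ, Pr n ∧ (n.1 : ℝ) ≤ D ∧ |sp n - τ| ≤ w
  · exact Or.inl hI
  right
  have hall : ∀ n : ℤ × ℤ, Pr n → (n.1 : ℝ) ≤ D → w < |sp n - τ| := by
    intro n hn h1
    by_contra hc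
    exact hI ⟨n, hn, h1, not_lt.1 hc⟩
  refine ⟨hall, ?_⟩
  obtain ⟨n, hn, h1, h2⟩ := dir33 τ hD
  have h3 := hall n hn h1
  have hD0 : 0 < D := by linarith
  have hn1 : (0 : ℝ) < (n.1 : ℝ) := by exact_mod_cast hn.2
  have hθ : 0 < (n.1 : ℝ) * |sp n - τ| := mul_pos hn1 (hw.trans h3)
  obtain ⟨θ, hθe⟩ : ∃ θ : ℝ, θ = (n.1 : ℝ) * |sp n - τ| := ⟨_, rfl⟩
  rw [← hθe] at hθ h2
  have hx : 1 ≤ 1 / θ := by
    rw [le_div_iff₀ hθ]
    have : 1 / D ≤ 1 := by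
      rw [div_le_one hD0]
      exact hD
    linarith
  obtain ⟨j, hj1, hj2⟩ := exists_nat_pow_near hx (by norm_num : (1 : ℝ) < 2)
  refine ⟨j, n, hn, h1, h3, ?_, ?_, ?_⟩
  · have : D ≤ 1 / θ := by
      rw [le_div_iff₀ hθ]
      rw [lt_div_iff₀ hD0] at h2
      linarith
    exact this.trans hj2.le
  · rw [← hθe]
    rwa [le_div_iff₀ hθ] at hj1
  · rw [← hθe]
    rw [div_lt_iff₀ hθ, pow_succ] at hj2
    linarith

/-- two different primitive vectors have different slopes -/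
private theorem det33 {n m : ℤ × ℤ} (hn : Pr n) (hm : Pr m) (h : n ≠ m) : 1 ≤ (n.1 : ℝ) * m.1 * |sp n - sp m| := by
  have hn1 : (0 : ℝ) < (n.1 : ℝ) := by exact_mod_cast hn.2
  have hm1 : (0 : ℝ) < (m.1 : ℝ) := by exact_mod_cast hm.2
  have hd : n.2 * m.1 - m.2 * n.1 ≠ 0 := by
    intro h0
    apply h
    have hc : n.2 * m.1 = m.2 * n.1 := by linarith
    have d1 : n.1 ∣ m.1 := by
      have : n.1 ∣ n.2 * m.1 := ⟨m.2, by rw [hc]; ring⟩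
      exact hn.1.dvd_of_dvd_mul_left this
    have d2 : m.1 ∣ n.1 := by
      have : m.1 ∣ m.2 * n.1 := ⟨n.2, by rw [← hc]; ring⟩
      exact hm.1.dvd_of_dvd_mul_left this
    have e1 : n.1 = m.1 := Int.dvd_antisymm hn.2.le hm.2.le d1 d2
    refine Prod.ext e1 ?_
    rw [e1] at hc
    exact mul_right_cancel₀ hm.2.ne' hc
  have e : (n.1 : ℝ) * m.1 * |sp n - sp m| = |((n.2 * m.1 - m.2 * n.1 : ℤ) : ℝ)| := by
    have e0 : (n.1 : ℝ) * m.1 * |sp n - sp m| = |(n.1 : ℝ) * m.1 * (sp n - sp m)| := by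
      rw [abs_mul, abs_of_pos (mul_pos hn1 hm1)]
    rw [e0]
    congr 1
    unfold sp
    push_cast
    field_simp
  rw [e, ← Int.cast_abs]
  have : (1 : ℤ) ≤ |n.2 * m.1 - m.2 * n.1| := Int.one_le_abs hd
  exact_mod_cast this

/-- K4: the vectors of height about `Q` near the arcs of level `Q` -/
theorem sub_near {D Q τ τ' : ℝ} (hD : 1 ≤ D) (hDQ : D ≤ 2 * Q) {n : ℤ × ℤ} (hn : Pr n) (h1 : (n.1 : ℝ) ≤ D) (h2 : 2 * |τ' - τ| < |sp n - τ|)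
    (h3 : Q * ((n.1 : ℝ) * |sp n - τ|) ≤ 1) (h4 : 1 ≤ 2 * Q * ((n.1 : ℝ) * |sp n - τ|)) :
    ∃ n' : ℤ × ℤ, Pr n' ∧ Q ≤ 8 * (n'.1 : ℝ) ∧ (n'.1 : ℝ) ≤ 8 * Q ∧ |sp n' - τ'| * (n'.1 : ℝ) ^ 2 ≤ 1 := by
  have hQ : 0 < Q := by linarith
  have hV : 1 ≤ 4 * Q := by linarith
  obtain ⟨n', hn', h5, h6⟩ := dir33 τ' hV
  have ha : (0 : ℝ) < (n.1 : ℝ) := by exact_mod_cast hn.2
  have hb : (0 : ℝ) < (n'.1 : ℝ) := by exact_mod_cast hn'.2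
  have t1 : |sp n - τ| ≤ |sp n - τ'| + |τ' - τ| := abs_sub_le _ _ _
  have t2 : |sp n - τ'| ≤ |sp n - τ| + |τ' - τ| := by
    have := abs_sub_le (sp n) τ τ'
    rwa [abs_sub_comm τ τ'] at this
  have hne : n ≠ n' := by
    rintro rfl
    have e1 : |sp n - τ| < 2 * |sp n - τ'| := by linarith
    have e2 : (n.1 : ℝ) * |sp n - τ| ≤ (n.1 : ℝ) * (2 * |sp n - τ'|) := mul_le_mul_of_nonneg_left e1.le ha.le
    have e3 : 2 * Q * ((n.1 : ℝ) * |sp n - τ|) ≤ 2 * Q * ((n.1 : ℝ) * (2 * |sp n - τ'|)) := mul_le_mul_of_nonneg_left e2 (by positivity)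
    rw [lt_div_iff₀ (by positivity)] at h6
    nlinarith
  have hdet := det33 hn hn' hne
  have t3 : |sp n - sp n'| ≤ |sp n - τ'| + |sp n' - τ'| := by
    have := abs_sub_le (sp n) τ' (sp n')
    rwa [abs_sub_comm τ' (sp n')] at this
  have t4 : |sp n - sp n'| ≤ 3 / 2 * |sp n - τ| + |sp n' - τ'| := by linarith
  have t5 : 1 ≤ (n.1 : ℝ) * n'.1 * (3 / 2 * |sp n - τ| + |sp n' - τ'|) :=
    hdet.trans (mul_le_mul_of_nonneg_left t4 (by positivity))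
  rw [lt_div_iff₀ (by positivity)] at h6
  -- `a b' |sp n' - τ'| ≤ a / (4 Q) ≤ 1 / 2`
  have t6 : (n.1 : ℝ) * n'.1 * |sp n' - τ'| ≤ 1 / 2 := by
    have e1 : (n.1 : ℝ) ≤ 2 * Q := h1.trans hDQ
    have e2 : 0 ≤ (n'.1 : ℝ) * |sp n' - τ'| := by positivity
    nlinarith
  have t7 : 1 / 2 ≤ 3 / 2 * ((n'.1 : ℝ) * ((n.1 : ℝ) * |sp n - τ|)) := by nlinarith
  refine ⟨n', hn', ?_, by linarith, ?_⟩
  · have e1 : Q * (1 / 2) ≤ Q * (3 / 2 * ((n'.1 : ℝ) * ((n.1 : ℝ) * |sp n - τ|))) := mul_le_mul_of_nonneg_left t7 hQ.le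
    have e2 : Q * (3 / 2 * ((n'.1 : ℝ) * ((n.1 : ℝ) * |sp n - τ|))) = 3 / 2 * (n'.1 : ℝ) * (Q * ((n.1 : ℝ) * |sp n - τ|)) := by ring
    rw [e2] at e1
    have e3 : 3 / 2 * (n'.1 : ℝ) * (Q * ((n.1 : ℝ) * |sp n - τ|)) ≤ 3 / 2 * (n'.1 : ℝ) * 1 := mul_le_mul_of_nonneg_left h3 (by positivity)
    linarith
  · have e1 : |sp n' - τ'| * (n'.1 : ℝ) ^ 2 = (n'.1 : ℝ) * ((n'.1 : ℝ) * |sp n' - τ'|) := by ring
    rw [e1]
    have e2 : (n'.1 : ℝ) * ((n'.1 : ℝ) * |sp n' - τ'|) ≤ 4 * Q * ((n'.1 : ℝ) * |sp n' - τ'|) := mul_le_mul_of_nonneg_right h5 (by positivity)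
    nlinarith

end Pool.Agent.Helper60.RT
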