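import Pool.Agent.Helper60.RT.Defs2
import Pool.Agent.Helper92.LA.A3

/-!
# Project RT, block E3 (`sqa_bd`): from the cone to the square annulus, the four rotations
-/

open MeasureTheory Real Set Filter Topology

set_option autoImplicit false

namespace Pool.Agent.Helper60.RT

open Pool.Agent.Helper22.AE
open Pool.Agent.Helper22.AC (IsWt)
open Pool.Agent.Helper92.GC (dt tp Tq uu tt arc dd sqa m6)
open Pool.Agent.Helper92.DT (m12 IsMul12)
open Pool.Agent.Helper60.LT (Fr Tf xf yf df vf fr ac co Cut BB PP)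
open Pool.Agent.Helper60.QL (R3 nm pA xA sA TA Cone)
open Pool.Agent.Helper78.CD (n12)
open Pool.Agent.Helper78.CE (hs mu2)

private theorem pw33 {ι : Type} (P : Finset ι) (f : ι → ℝ) (hf : ∀ i ∈ P, 0 ≤ f i) :
    (∑ i ∈ P, f i) ^ 12 ≤ (P.card : ℝ) ^ 11 * ∑ i ∈ P, f i ^ 12 := by
  rcases P.eq_empty_or_nonempty with hP0 | hP0
  · rw [hP0]
    simp
  · have h := pow_sum_div_card_le_sum_pow (s := P) (f := f) hf 11
    have hcd : (0 : ℝ) < (P.card : ℝ) ^ 11 := by
      have : (0 : ℝ) < (P.card : ℝ) := by exact_mod_cast hP0.card_pos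
      positivity
    rw [div_le_iff₀ hcd, mul_comm] at h
    exact h

private theorem intb33 {f : ℝ × ℝ → ℝ} (hf : Continuous f) : Integrable f (volume.restrict Tq) := by
  have h1 : IsCompact Tq := isCompact_Icc.prod isCompact_Icc
  exact hf.continuousOn.integrableOn_compact h1

/-- splitting of the twelfth moment into the fibres of a map -/
private theorem m12_fib33 {ι : Type} [DecidableEq ι] (S : Finset (ℤ × ℤ)) (g : ℤ × ℤ → ι) (P : Finset ι) (hP : ∀ k ∈ S, g k ∈ P) (a : ℤ × ℤ → ℂ) :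
    m12 S a ≤ (P.card : ℝ) ^ 11 * ∑ i ∈ P, m12 (S.filter (fun k => g k = i)) a := by
  have hc : ∀ S : Finset (ℤ × ℤ), Continuous fun c => ‖tp S a c‖ ^ 12 := fun S => (Pool.Agent.Helper92.GC.tp_cont S a).norm.pow 12
  have h1 : ∀ c, ‖tp S a c‖ ^ 12 ≤ (P.card : ℝ) ^ 11 * ∑ i ∈ P, ‖tp (S.filter (fun k => g k = i)) a c‖ ^ 12 := by
    intro c
    have h2 : tp S a c = ∑ i ∈ P, tp (S.filter (fun k => g k = i)) a c := by
      unfold tp
      exact (Finset.sum_fiberwise_of_maps_to hP _).symm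
    have h3 : ‖tp S a c‖ ≤ ∑ i ∈ P, ‖tp (S.filter (fun k => g k = i)) a c‖ := by
      rw [h2]
      exact norm_sum_le _ _
    exact (pow_le_pow_left₀ (norm_nonneg _) h3 12).trans (pw33 P (fun i => ‖tp (S.filter (fun k => g k = i)) a c‖) (fun i _ => norm_nonneg _))
  unfold m12
  rw [← integral_finsetSum _ fun i _ => intb33 (hc _), ← integral_const_mul]
  exact integral_mono (intb33 (hc _)) (intb33 (continuous_const.mul (continuous_finsetSum _ fun i _ => hc _))) h1

private theorem mr_cont33 (e : Fr) (S : Finset (ℤ × ℤ)) : Continuous fun q : ℝ × ℝ => mr S q.2 (st q.1 e) := by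
  unfold mr
  refine Pool.Agent.Helper92.LA.m12_cont_coef S (fun (q : ℝ × ℝ) k => ee (q.2 * nm (vf (st q.1 e) k))) fun k _ => ee_cont.comp ?_
  unfold nm vf st
  fun_prop

private theorem abs33 {ι : Type} (P : Finset ι) (F : ι → ℝ → ℝ → ENNReal) (hm : ∀ i, Measurable fun q : ℝ × ℝ => F i q.1 q.2) (G : ℝ → ℝ → ENNReal)
    (c : ENNReal) (h : ∀ s r, G s r ≤ c * ∑ i ∈ P, F i s r) (A B : Set ℝ) :
    ∫⁻ s in A, ∫⁻ r in B, G s r ≤ c * ∑ i ∈ P, ∫⁻ s in A, ∫⁻ r in B, F i s r := by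
  have hm1 : ∀ (i : ι) (s : ℝ), Measurable fun r : ℝ => F i s r := fun i s => (hm i).comp (measurable_const.prodMk measurable_id)
  have hm2 : ∀ i : ι, Measurable fun s : ℝ => ∫⁻ r in B, F i s r := fun i => (hm i).lintegral_prod_right'
  rw [← lintegral_finsetSum _ fun i _ => hm2 i, ← lintegral_const_mul _ (Finset.measurable_fun_sum _ fun i _ => hm2 i)]
  refine lintegral_mono fun s => ?_
  dsimp only
  rw [← lintegral_finsetSum _ fun i _ => hm1 i s, ← lintegral_const_mul _ (Finset.measurable_fun_sum _ fun i _ => hm1 i s)]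
  exact lintegral_mono fun r => h s r

private theorem RI_fib33 {ι : Type} [DecidableEq ι] (e : Fr) (B X : ℝ) (S : Finset (ℤ × ℤ)) (g : ℤ × ℤ → ι) (P : Finset ι) (hP : ∀ k ∈ S, g k ∈ P) :
    RI e B X S ≤ ENNReal.ofReal ((P.card : ℝ) ^ 11) * ∑ i ∈ P, RI e B X (S.filter (fun k => g k = i)) := by
  have key : ∀ s r : ℝ, ENNReal.ofReal (mr S r (st s e)) ≤
      ENNReal.ofReal ((P.card : ℝ) ^ 11) * ∑ i ∈ P, ENNReal.ofReal (mr (S.filter (fun k => g k = i)) r (st s e)) := by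
    intro s r
    have h0 : ∀ i ∈ P, 0 ≤ mr (S.filter (fun k => g k = i)) r (st s e) := fun i _ => Pool.Agent.Helper92.DT.m12_nonneg _ _
    have h1 : mr S r (st s e) ≤ (P.card : ℝ) ^ 11 * ∑ i ∈ P, mr (S.filter (fun k => g k = i)) r (st s e) := m12_fib33 S g P hP _
    have h2 : (0 : ℝ) ≤ (P.card : ℝ) ^ 11 := pow_nonneg (Nat.cast_nonneg _) _
    rw [← ENNReal.ofReal_sum_of_nonneg h0, ← ENNReal.ofReal_mul h2]
    exact ENNReal.ofReal_le_ofReal h1
  exact abs33 P (fun i s r => ENNReal.ofReal (mr (S.filter (fun k => g k = i)) r (st s e)))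
    (fun i => ENNReal.measurable_ofReal.comp (mr_cont33 e _).measurable) (fun s r => ENNReal.ofReal (mr S r (st s e))) _ key _ _

/-- the rotation of the frequencies -/
private def rt33 (k : ℤ × ℤ) : ℤ × ℤ := (-k.2, k.1)

/-- the rotation of the frames -/
private def rf33 (f : Fr) : Fr := (f.2, -f.1)

private theorem rt_inj33 : Function.Injective rt33 := by
  intro k l h
  unfold rt33 at h
  have h1 := congrArg Prod.fst h
  have h2 := congrArg Prod.snd h
  simp only at h1 h2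
  exact Prod.ext h2 (neg_injective h1)

private theorem df_rf33 (e : Fr) : df (rf33 e) = df e := by
  unfold df rf33
  simp only [Prod.fst_neg, Prod.snd_neg]
  ring

private theorem RI_rt33 (e : Fr) (B X : ℝ) (S : Finset (ℤ × ℤ)) : RI e B X (S.image rt33) = RI (rf33 e) B X S := by
  unfold RI mr
  refine lintegral_congr fun s => lintegral_congr fun r => ?_
  rw [Pool.Agent.Helper60.LT.m12_image rt33 (fun k l => by
    unfold rt33
    exact Prod.ext (by simp only [Prod.fst_add, Prod.snd_add]; ring) (by simp only [Prod.fst_add, Prod.snd_add])) rt_inj33]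
  congr 2
  funext k
  congr 3
  unfold vf rf33 rt33 st
  simp only [Prod.fst_neg, Prod.snd_neg]
  push_cast
  refine Prod.ext ?_ ?_ <;> dsimp only <;> ring

open Classical in
/-- the number of the quarter -/
private noncomputable def qt33 (k : ℤ × ℤ) : ℕ :=
  if -k.1 < k.2 ∧ k.2 ≤ k.1 then 0 else if k.1 < k.2 ∧ -k.1 ≤ k.2 then 1 else if k.1 ≤ k.2 ∧ k.2 < -k.1 then 2 else 3

private theorem mem_cn33 (N : ℕ) (k : ℤ × ℤ) : k ∈ cn N ↔ k ∈ sqa N ∧ (-k.1 < k.2 ∧ k.2 ≤ k.1) := by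
  unfold cn
  rw [Finset.mem_filter]

private theorem mem_sqa33 (N : ℕ) (k : ℤ × ℤ) : k ∈ sqa N ↔ ((N : ℤ) ≤ |k.1| ∨ (N : ℤ) ≤ |k.2|) ∧ |k.1| < 2 * N ∧ |k.2| < 2 * N := by
  unfold sqa
  rw [Finset.mem_filter]
  refine ⟨fun h => h.2, fun h => ⟨?_, h⟩⟩
  unfold box
  rw [Finset.mem_product, Finset.mem_Icc, Finset.mem_Icc]
  have h1 := abs_lt.1 h.2.1
  have h2 := abs_lt.1 h.2.2
  push_cast
  omega

private theorem sqa_rt33 (N : ℕ) (k : ℤ × ℤ) : rt33 k ∈ sqa N ↔ k ∈ sqa N := by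
  rw [mem_sqa33, mem_sqa33]
  unfold rt33
  simp only [abs_neg]
  tauto

private theorem q0_33 (N : ℕ) : (sqa N).filter (fun k => qt33 k = 0) = cn N := by
  ext k
  rw [Finset.mem_filter, mem_cn33]
  unfold qt33
  split_ifs <;> simp_all

private theorem q1_33 (N : ℕ) : (sqa N).filter (fun k => qt33 k = 1) = (cn N).image rt33 := by
  ext k
  rw [Finset.mem_filter, Finset.mem_image]
  constructor
  · rintro ⟨h1, h2⟩
    refine ⟨(k.2, -k.1), ?_, ?_⟩
    · rw [mem_cn33]
      refine ⟨?_, ?_⟩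
      · rw [← sqa_rt33]
        unfold rt33
        simpa using h1
      · unfold qt33 at h2
        simp only
        split_ifs at h2 with h3 h4 h5 <;> first | omega | (exact absurd h2 (by norm_num))
    · unfold rt33
      simp
  · rintro ⟨l, hl, rfl⟩
    rw [mem_cn33] at hl
    refine ⟨(sqa_rt33 N l).2 hl.1, ?_⟩
    have h2 := hl.2
    unfold qt33 rt33
    simp only
    split_ifs with h3 h4 h5 <;> omega

private theorem q2_33 (N : ℕ) : (sqa N).filter (fun k => qt33 k = 2) = ((cn N).image rt33).image rt33 := by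
  ext k
  rw [Finset.mem_filter, Finset.mem_image]
  constructor
  · rintro ⟨h1, h2⟩
    refine ⟨(k.2, -k.1), ?_, ?_⟩
    · rw [Finset.mem_image]
      refine ⟨(-k.1, -k.2), ?_, ?_⟩
      · rw [mem_cn33]
        refine ⟨?_, ?_⟩
        · rw [← sqa_rt33, ← sqa_rt33]
          unfold rt33
          simpa using h1
        · unfold qt33 at h2
          simp only
          split_ifs at h2 with h3 h4 h5 <;> first | omega | (exact absurd h2 (by norm_num))
      · unfold rt33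
        simp
    · unfold rt33
      simp
  · rintro ⟨l, hl, rfl⟩
    rw [Finset.mem_image] at hl
    obtain ⟨m, hm, rfl⟩ := hl
    rw [mem_cn33] at hm
    refine ⟨(sqa_rt33 N _).2 ((sqa_rt33 N m).2 hm.1), ?_⟩
    have h2 := hm.2
    unfold qt33 rt33
    simp only
    split_ifs with h3 h4 h5 <;> omega

private theorem q3_33 {N : ℕ} (hN : 1 ≤ N) : (sqa N).filter (fun k => qt33 k = 3) = (((cn N).image rt33).image rt33).image rt33 := by
  ext k
  rw [Finset.mem_filter, Finset.mem_image]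
  constructor
  · rintro ⟨h1, h2⟩
    have h0 := (mem_sqa33 N k).1 h1
    refine ⟨(k.2, -k.1), ?_, ?_⟩
    · rw [Finset.mem_image]
      refine ⟨(-k.1, -k.2), ?_, ?_⟩
      · rw [Finset.mem_image]
        refine ⟨(-k.2, k.1), ?_, ?_⟩
        · rw [mem_cn33]
          refine ⟨?_, ?_⟩
          · rw [← sqa_rt33, ← sqa_rt33, ← sqa_rt33]
            unfold rt33
            simpa using h1
          · have h5 : k.1 ≠ 0 ∨ k.2 ≠ 0 := by
              by_contra hc
              rw [not_or, not_not, not_not] at hc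
              rw [hc.1, hc.2] at h0
              simp only [abs_zero] at h0
              have hN' : (1 : ℤ) ≤ N := by exact_mod_cast hN
              omega
            unfold qt33 at h2
            simp only
            split_ifs at h2 with h3 h4 h6 <;> first | omega | (exact absurd h2 (by norm_num))
        · unfold rt33
          simp
      · unfold rt33
        simp
    · unfold rt33
      simp
  · rintro ⟨l, hl, rfl⟩
    rw [Finset.mem_image] at hl
    obtain ⟨m, hm, rfl⟩ := hl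
    rw [Finset.mem_image] at hm
    obtain ⟨p, hp, rfl⟩ := hm
    rw [mem_cn33] at hp
    refine ⟨(sqa_rt33 N _).2 ((sqa_rt33 N _).2 ((sqa_rt33 N p).2 hp.1)), ?_⟩
    have h2 := hp.2
    unfold qt33 rt33
    simp only
    split_ifs with h3 h4 h5 <;> omega

/-- E3: the square annulus -/
theorem sqa_bd (h : ∀ e : Fr, 0 < df e → ∀ η B : ℝ, 0 < η → 1 ≤ B → ∃ C : ℝ, 1 ≤ C ∧ ∀ (X : ℝ) (N : ℕ), 1 ≤ X → 1 ≤ N → X ^ (1 / 10 : ℝ) ≤ N →
      (N : ℝ) ≤ X ^ (4 / 9 + 1 / 1000 : ℝ) → RI e B X (cn N) ≤ ENNReal.ofReal (C * X ^ η * FR X N)) :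
    ∀ e : Fr, 0 < df e → ∀ η B : ℝ, 0 < η → 1 ≤ B → ∃ C : ℝ, 1 ≤ C ∧ ∀ (X : ℝ) (N : ℕ), 1 ≤ X → 1 ≤ N → X ^ (1 / 10 : ℝ) ≤ N →
      (N : ℝ) ≤ X ^ (4 / 9 + 1 / 1000 : ℝ) → RI e B X (sqa N) ≤ ENNReal.ofReal (C * X ^ η * FR X N) := by
  intro e he η B hη hB
  have he1 : 0 < df (rf33 e) := by rwa [df_rf33]
  have he2 : 0 < df (rf33 (rf33 e)) := by rwa [df_rf33]
  have he3 : 0 < df (rf33 (rf33 (rf33 e))) := by rwa [df_rf33]
  obtain ⟨C₀, hC₀, b0⟩ := h e he η B hη hB
  obtain ⟨C₁, hC₁, b1⟩ := h _ he1 η B hη hB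
  obtain ⟨C₂, hC₂, b2⟩ := h _ he2 η B hη hB
  obtain ⟨C₃, hC₃, b3⟩ := h _ he3 η B hη hB
  refine ⟨4 ^ 11 * (C₀ + C₁ + C₂ + C₃), by nlinarith, fun X N hX hN h1 h2 => ?_⟩
  have hX0 : 0 < X := by linarith
  have hF : 0 ≤ X ^ η * FR X N := by
    unfold FR
    positivity
  have c0 : RI e B X ((sqa N).filter (fun k => qt33 k = 0)) ≤ ENNReal.ofReal (C₀ * X ^ η * FR X N) := by
    rw [q0_33]
    exact b0 X N hX hN h1 h2
  have c1 : RI e B X ((sqa N).filter (fun k => qt33 k = 1)) ≤ ENNReal.ofReal (C₁ * X ^ η * FR X N) := by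
    rw [q1_33, RI_rt33]
    exact b1 X N hX hN h1 h2
  have c2 : RI e B X ((sqa N).filter (fun k => qt33 k = 2)) ≤ ENNReal.ofReal (C₂ * X ^ η * FR X N) := by
    rw [q2_33, RI_rt33, RI_rt33]
    exact b2 X N hX hN h1 h2
  have c3 : RI e B X ((sqa N).filter (fun k => qt33 k = 3)) ≤ ENNReal.ofReal (C₃ * X ^ η * FR X N) := by
    rw [q3_33 hN, RI_rt33, RI_rt33, RI_rt33]
    exact b3 X N hX hN h1 h2
  have hP : ∀ k ∈ sqa N, qt33 k ∈ Finset.range 4 := by
    intro k _
    rw [Finset.mem_range]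
    unfold qt33
    split_ifs <;> norm_num
  have hf := RI_fib33 e B X (sqa N) qt33 (Finset.range 4) hP
  refine hf.trans ?_
  rw [Finset.card_range, Finset.sum_range_succ, Finset.sum_range_succ, Finset.sum_range_succ, Finset.sum_range_succ, Finset.sum_range_zero, zero_add]
  have e1 : ENNReal.ofReal (4 ^ 11 * (C₀ + C₁ + C₂ + C₃) * X ^ η * FR X N) =
      ENNReal.ofReal (((4 : ℕ) : ℝ) ^ 11) * (ENNReal.ofReal (C₀ * X ^ η * FR X N) + ENNReal.ofReal (C₁ * X ^ η * FR X N) +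
        ENNReal.ofReal (C₂ * X ^ η * FR X N) + ENNReal.ofReal (C₃ * X ^ η * FR X N)) := by
    have p : ∀ c : ℝ, 1 ≤ c → 0 ≤ c * X ^ η * FR X N := by
      intro c hc
      rw [mul_assoc]
      exact mul_nonneg (by linarith) hF
    rw [← ENNReal.ofReal_add (p _ hC₀) (p _ hC₁), ← ENNReal.ofReal_add (add_nonneg (p _ hC₀) (p _ hC₁)) (p _ hC₂),
      ← ENNReal.ofReal_add (add_nonneg (add_nonneg (p _ hC₀) (p _ hC₁)) (p _ hC₂)) (p _ hC₃), ← ENNReal.ofReal_mul (by positivity)]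
    congr 1
    push_cast
    ring
  rw [e1]
  gcongr

end Pool.Agent.Helper60.RT
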